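import Pool.Agent.Helper93.FZ.St

set_option autoImplicit false

namespace Pool.Agent.Helper84.FZ

open Finset
open Pool.Agent.Helper93.FZ

theorem hRAT : StRAT := by
  classical
  intro ι κ _ _ M b x hx0 hM
  have hfin : (insert (1 : ℝ) (Set.range x)).Finite := (Set.finite_range x).insert 1
  let V : Submodule ℚ ℝ := Submodule.span ℚ (insert (1 : ℝ) (Set.range x))
  have : FiniteDimensional ℚ V := FiniteDimensional.span_of_finite ℚ hfin
  have h1 : (1 : ℝ) ∈ V := Submodule.subset_span (Set.mem_insert _ _)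
  have hxV : ∀ i, x i ∈ V := fun i =>
    Submodule.subset_span (Set.mem_insert_of_mem _ (Set.mem_range_self i))
  let B := Module.finBasis ℚ V
  let o : V := ⟨1, h1⟩
  let X : ι → V := fun i => ⟨x i, hxV i⟩
  -- evaluation in the reals
  have hev : ∀ w : V, (w : ℝ) = ∑ j, ((B.repr w j : ℚ) : ℝ) * ((B j : V) : ℝ) := by
    intro w
    have h := congrArg (Subtype.val : V → ℝ) (B.sum_repr w)
    rw [← h]
    rw [AddSubmonoidClass.coe_finsetSum]
    apply Finset.sum_congr rfl
    intro j _
    rw [Submodule.coe_smul, Rat.smul_def]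
  let F : V → (Fin (Module.finrank ℚ V) → ℝ) → ℝ :=
    fun w q => ∑ j, ((B.repr w j : ℚ) : ℝ) * q j
  have hFc : ∀ w, Continuous (F w) := by
    intro w
    exact continuous_finsetSum _ fun j _ => continuous_const.mul (continuous_apply j)
  let e : Fin (Module.finrank ℚ V) → ℝ := fun j => ((B j : V) : ℝ)
  have hFe : ∀ w, F w e = (w : ℝ) := fun w => (hev w).symm
  let U : Set (Fin (Module.finrank ℚ V) → ℝ) :=
    {q | 0 < F o q} ∩ ⋂ i, {q | 0 < x i → 0 < F (X i) q}
  have hUo : IsOpen U := by
    apply IsOpen.inter (isOpen_lt continuous_const (hFc o))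
    apply isOpen_iInter_of_finite
    intro i
    by_cases hi : 0 < x i
    · have : {q | 0 < x i → 0 < F (X i) q} = {q | 0 < F (X i) q} := by
        ext q; simp [hi]
      rw [this]
      exact isOpen_lt continuous_const (hFc _)
    · have : {q | 0 < x i → 0 < F (X i) q} = Set.univ := by
        ext q; simp [hi]
      rw [this]
      exact isOpen_univ
  have heU : e ∈ U := by
    refine ⟨?_, ?_⟩
    · show 0 < F o e
      rw [hFe]
      exact one_pos
    · rw [Set.mem_iInter]
      intro i hi
      show 0 < F (X i) e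
      rw [hFe]
      exact hi
  have hd : DenseRange (fun (q : Fin (Module.finrank ℚ V) → ℚ) (j : Fin (Module.finrank ℚ V)) =>
      ((q j : ℚ) : ℝ)) := by
    have := DenseRange.piMap (f := fun (_ : Fin (Module.finrank ℚ V)) (q : ℚ) => (q : ℝ))
      (fun _ => Rat.denseRange_cast)
    exact this
  obtain ⟨q, hq⟩ := hd.exists_mem_open hUo ⟨e, heU⟩
  let φ : V →ₗ[ℚ] ℚ := B.constr ℚ q
  have hφ : ∀ w, ((φ w : ℚ) : ℝ) = F w fun j => ((q j : ℚ) : ℝ) := by
    intro w
    show (((B.constr ℚ q) w : ℚ) : ℝ) = _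
    rw [Module.Basis.constr_apply_fintype]
    push_cast
    apply Finset.sum_congr rfl
    intro j _
    simp [Module.Basis.equivFun_apply]
  have ho : 0 < φ o := by
    have : (0 : ℝ) < ((φ o : ℚ) : ℝ) := by
      rw [hφ]; exact hq.1
    exact_mod_cast this
  refine ⟨fun i => φ (X i) / φ o, ?_, ?_, ?_⟩
  · intro i hi
    have h2 : 0 < F (X i) fun j => ((q j : ℚ) : ℝ) := (Set.mem_iInter.1 hq.2 i) hi
    have h3 : 0 < φ (X i) := by
      have : (0 : ℝ) < ((φ (X i) : ℚ) : ℝ) := by
        rw [hφ]; exact h2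
      exact_mod_cast this
    exact div_pos h3 ho
  · intro i hi
    have : X i = 0 := Subtype.ext hi
    show φ (X i) / φ o = 0
    rw [this, map_zero, zero_div]
  · intro k
    have hV : ∑ i, M k i • X i = b k • o := by
      apply Subtype.ext
      rw [AddSubmonoidClass.coe_finsetSum]
      simp only [Submodule.coe_smul, Rat.smul_def]
      rw [hM k]
      simp [o]
    have h4 := congrArg φ hV
    rw [map_sum, map_smul] at h4
    simp only [map_smul, smul_eq_mul] at h4
    have h5 : ∑ i, M k i * (φ (X i) / φ o) = (∑ i, M k i * φ (X i)) / φ o := by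
      rw [Finset.sum_div]
      apply Finset.sum_congr rfl
      intro i _
      ring
    rw [h5, h4]
    field_simp

end Pool.Agent.Helper84.FZ
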